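import Mathlib
import Pool.Agent.T9h8.PP.Fin
set_option autoImplicit false

/-!
# The restriction conjecture for the paraboloid, tested on products of functions of two coordinates

Let `d = n + 1` and `q > 2d/(d-1)`. In EVERY basis of `ℝ^d` (the rows of an invertible matrix `A`,
the constant does not depend on it) and for all nonnegative functions `g_ij` of two variables the
conjectured `L^∞ → L^q` extension estimate holds when it is tested on the product of the functions
`g_ij((Ax)_i, (Ax)_j)^(w_ij (1-1/q))`, `i < j`, where the weights `w_ij ≥ 0` have total weight one at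
each coordinate. The right side is the bound of Finner (Loomis and Whitney if the weights are equal)
for the `L^{q'}` norm of this product.
-/

namespace Pool.Agent.Results.MP_b7167f_an.PairProducts

open MeasureTheory Set Complex
open scoped ENNReal NNReal

/-- The extension operator of the truncated paraboloid in `ℝ^(n+1)`:
`Ef(x) = ∫_{[-1,1]^n} f(ξ) exp(2πi(ξ_1 x_1 + ... + ξ_n x_n + |ξ|² x_{n+1})) dξ`. -/
noncomputable def ext {n : ℕ} (f : (Fin n → ℝ) → ℂ) (x : Fin (n + 1) → ℝ) : ℂ :=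
  ∫ ξ in Icc (-1 : Fin n → ℝ) 1, f ξ *
    cexp (2 * Real.pi * I *
      ((∑ i, ξ i * x (Fin.castSucc i) + (∑ i, ξ i ^ 2) * x (Fin.last n) : ℝ) : ℂ))

/-- Weights of the pairs `i < j` of coordinates: nonnegative, and for each coordinate `i` the
weights of the pairs that contain `i` add up to one. -/
structure Weights {d : ℕ} (w : Fin d → Fin d → ℝ) : Prop where
  /-- the weights are nonnegative -/
  nonneg : ∀ i j, 0 ≤ w i j
  /-- the total weight at each coordinate is one -/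
  total : ∀ i, ∑ j ∈ Finset.Ioi i, w i j + ∑ j ∈ Finset.Iio i, w j i = 1

open Pool.Agent.T9h8.PP

lemma ext_eq {n : ℕ} (f : (Fin n → ℝ) → ℂ) (x : Fin (n + 1) → ℝ) : ext f x = Ex f x := by
  unfold ext Ex Cu ch Ph
  refine integral_congr_ae (Filter.Eventually.of_forall fun ξ => ?_)
  show f ξ * _ = f ξ * _
  congr 4
  rw [Fin.sum_univ_castSucc]
  simp only [Fin.snoc_castSucc, Fin.snoc_last]
  rw [mul_comm (x (Fin.last n))]
  congr 1
  exact Finset.sum_congr rfl fun i _ => mul_comm _ _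

/-- **The restriction conjecture for the paraboloid tested on products of functions of pairs of
coordinates**, in all bases. -/
theorem result (n : ℕ) (hn : 1 ≤ n) (q : ℝ) (hq : 2 * ((n : ℝ) + 1) / n < q) :
    ∃ C : ℝ≥0, ∀ A : Matrix (Fin (n + 1)) (Fin (n + 1)) ℝ, A.det ≠ 0 →
      ∀ w : Fin (n + 1) → Fin (n + 1) → ℝ, Weights w →
      ∀ f : (Fin n → ℝ) → ℂ, Measurable f → (∀ ξ, ‖f ξ‖ ≤ 1) →
      ∀ g : Fin (n + 1) → Fin (n + 1) → ℝ × ℝ → ℝ≥0∞, (∀ i j, Measurable (g i j)) →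
        ∫⁻ x, ‖ext f x‖ₑ * ∏ i, ∏ j ∈ Finset.Ioi i,
            g i j (A.mulVec x i, A.mulVec x j) ^ (w i j * (1 - 1 / q)) ≤
          C * (ENNReal.ofReal |A.det|⁻¹ *
            ∏ i, ∏ j ∈ Finset.Ioi i, (∫⁻ z, g i j z) ^ w i j) ^ (1 - 1 / q) := by
  have hn0 : (1 : ℝ) ≤ n := by exact_mod_cast hn
  have hq1 : 1 < q := by
    refine lt_trans ?_ hq
    rw [lt_div_iff₀ (by linarith)]
    linarith
  have hq0 : 0 < q := by linarith
  have hs0 : 0 ≤ 1 - 1 / q := by
    have : 1 / q ≤ 1 := by rw [div_le_one hq0]; exact hq1.le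
    linarith
  obtain ⟨C, hC⟩ := all n hn q hq
  refine ⟨C, ?_⟩
  intro A hA w hw f hf hf1 g hg
  have hw' : IsWeight w := ⟨hw.nonneg, hw.total⟩
  have h1 := hC A hA f hf hf1 w hw' g hg
  set a0 : ℝ≥0∞ := ENNReal.ofReal |A.det| with ha0
  have hpos : 0 < |A.det| := abs_pos.2 hA
  have ha0' : a0 ≠ 0 := by rw [ha0]; exact (ENNReal.ofReal_pos.2 hpos).ne'
  have ha0t : a0 ≠ ∞ := ENNReal.ofReal_ne_top
  set H : (Fin (n + 1) → ℝ) → ℝ≥0∞ := fun y => ‖Ex f (A⁻¹.mulVec y)‖ₑ * Gp w g (1 - 1 / q) y with hH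
  have hHm : Measurable H := by
    have h2 : Measurable fun y => Ex f (A⁻¹.mulVec y) :=
      (Ex_cont f hf hf1).measurable.comp (mulVec_meas _)
    exact h2.enorm.mul (Gp_meas w g hg _)
  have hunit : IsUnit A.det := isUnit_iff_ne_zero.2 hA
  have hHA : ∀ x, H (A.mulVec x) = ‖ext f x‖ₑ * ∏ i, ∏ j ∈ Finset.Ioi i,
      g i j (A.mulVec x i, A.mulVec x j) ^ (w i j * (1 - 1 / q)) := by
    intro x
    rw [hH]
    show ‖Ex f (A⁻¹.mulVec (A.mulVec x))‖ₑ * Gp w g (1 - 1 / q) (A.mulVec x) = _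
    rw [Matrix.mulVec_mulVec, Matrix.nonsing_inv_mul A hunit, Matrix.one_mulVec, ext_eq]
    unfold Gp
    rw [prod_Pr]
  have hcv : ∫⁻ x, H (A.mulVec x) = a0⁻¹ * ∫⁻ y, H y := by
    have h2 := Real.map_matrix_volume_pi_eq_smul_volume_pi hA
    have h3 := lintegral_map (μ := (volume : Measure (Fin (n + 1) → ℝ))) hHm
      (mulVec_meas A)
    have h4 : (Measure.map (fun x => A.mulVec x) (volume : Measure (Fin (n + 1) → ℝ))) =
        ENNReal.ofReal |A.det⁻¹| • volume := h2
    rw [← h3, h4, lintegral_smul_measure, abs_inv, ENNReal.ofReal_inv_of_pos hpos]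
    rfl
  rw [← lintegral_congr hHA, hcv, ENNReal.ofReal_inv_of_pos hpos, ← ha0]
  calc a0⁻¹ * ∫⁻ y, H y ≤ a0⁻¹ * (C * (a0 ^ (1 / q) * Ip w g (1 - 1 / q))) :=
        mul_le_mul' le_rfl h1
    _ = C * ((a0⁻¹ * a0 ^ (1 / q)) * Ip w g (1 - 1 / q)) := by ring
    _ = C * ((a0⁻¹) ^ (1 - 1 / q) * Ip w g (1 - 1 / q)) := by
        congr 2
        rw [ENNReal.inv_rpow, ← ENNReal.rpow_neg_one a0, ← ENNReal.rpow_neg,
          ← ENNReal.rpow_add _ _ ha0' ha0t]
        congr 1
        ring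
    _ = _ := by
        rw [ENNReal.mul_rpow_of_nonneg _ _ hs0]
        congr 2
        unfold Ip
        rw [prod_Pr, ← ENNReal.prod_rpow_of_nonneg hs0]
        refine Finset.prod_congr rfl fun i _ => ?_
        rw [← ENNReal.prod_rpow_of_nonneg hs0]
        refine Finset.prod_congr rfl fun j _ => ?_
        rw [ENNReal.rpow_mul]

end Pool.Agent.Results.MP_b7167f_an.PairProducts
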